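import Pool.Agent.Q20.RS.Lvd

/-!
# The numbers `A_k(χ)` of the equivariant Beilinson conjecture

`k ≥ 2`, `M/F` is a Galois extension of number fields with group `G`,
`V = ⊕_{τ : M → ℂ} ℝ(k-1)`, and `H ⊆ V⁺` stands for the image of `K_{2k-1}(M) ⊗ ℚ` under the regulator.
-/

set_option autoImplicit false
set_option linter.unusedSectionVars false

namespace Pool.Agent.Q20.RS.BK

open NumberField IsDedekindDomain
open Representation (IntertwiningMap)

section deligne
variable (k : ℕ) (M : Type) [Field M]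

/-- `ℂ ⊗ V⁺`: the complex functions `a` on the embeddings of `M` in `ℂ` with
`a(τ̄) = (-1)^(k-1) a(τ)` -/
noncomputable def VS : Submodule ℂ ((M →+* ℂ) → ℂ) where
  carrier := {a | ∀ τ, a ((starRingEnd ℂ).comp τ) = (-1) ^ (k - 1) * a τ}
  add_mem' := fun {a b} ha hb τ => by
    rw [Pi.add_apply, Pi.add_apply, ha, hb, mul_add]
  zero_mem' := fun τ => by
    rw [Pi.zero_apply, Pi.zero_apply, mul_zero]
  smul_mem' := fun c a ha τ => by
    rw [Pi.smul_apply, Pi.smul_apply, ha, smul_eq_mul, smul_eq_mul, mul_left_comm]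

/-- `ℂ ⊗ V⁺` as a type -/
def VC : Type := VS k M

noncomputable instance vcGroup : AddCommGroup (VC k M) := Submodule.addCommGroup (VS k M)

noncomputable instance vcModule : Module ℂ (VC k M) := Submodule.module (VS k M)

variable {k M}

/-- the function on the embeddings -/
def VC.fn (x : VC k M) : (M →+* ℂ) → ℂ := x.1

/-- the elements of `B⁺`, `B = ⊕_τ ℚ(k-1)`, `ℚ(k-1) = ℚ (2πi)^(k-1)` -/
def Betti (x : VC k M) : Prop :=
  ∀ τ, ∃ q : ℚ, x.fn τ = q * (2 * Real.pi * Complex.I) ^ (k - 1)

variable {F : Type} [Field F] [Algebra F M]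

/-- `τ ↦ τ ∘ γ` -/
def emb (γ : M ≃ₐ[F] M) (τ : M →+* ℂ) : M →+* ℂ := τ.comp (γ : M →+* M)

theorem vc_act (γ : M ≃ₐ[F] M) (a : (M →+* ℂ) → ℂ) (ha : a ∈ VS k M) :
    LinearMap.funLeft ℂ ℂ (emb γ) a ∈ VS k M := fun τ => ha (emb γ τ)

/-- the action `(γ a)(τ) = a(τ ∘ γ)` -/
noncomputable def vact (k : ℕ) (γ : M ≃ₐ[F] M) : VC k M →ₗ[ℂ] VC k M :=
  (LinearMap.funLeft ℂ ℂ (emb γ)).restrict (vc_act γ)

theorem vact_one : vact k (1 : M ≃ₐ[F] M) = (1 : Module.End ℂ (VC k M)) := by
  ext a
  rfl

theorem vact_mul (γ δ : M ≃ₐ[F] M) :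
    vact k (γ * δ) = (vact k γ * vact k δ : Module.End ℂ (VC k M)) := by
  ext a
  rfl

/-- the representation of the Galois group on `ℂ ⊗ V⁺` -/
noncomputable def VRep (k : ℕ) (F M : Type) [Field F] [Field M] [Algebra F M] :
    Representation ℂ (M ≃ₐ[F] M) (VC k M) where
  toFun := vact k
  map_one' := vact_one
  map_mul' := vact_mul

/-- **Comparison maps**: the automorphisms of the representation `ℂ ⊗ V⁺` of the Galois group of
`M/F` which map `B⁺` onto `H` -/
structure CMap (k : ℕ) (F : Type) {M : Type} [Field M] [Field F] [Algebra F M]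
    (H : Set (VC k M)) : Type where
  /-- the map -/
  map : IntertwiningMap (VRep k F M) (VRep k F M)
  bijective : Function.Bijective map
  image : ∀ x : VC k M, Betti x ↔ map x ∈ H

end deligne

section lfun
variable {k : ℕ} {F M : Type} [Field F] [NumberField F] [Field M] [NumberField M] [Algebra F M]

/-- `L_S^*(χ, 1-k)`: the leading coefficient at `s = 1-k` of the meromorphic continuation of
`L_S(s, χ)` -/
noncomputable def leadK (k : ℕ) (T : Finset (HeightOneSpectrum (𝓞 M))) (χ : (M ≃ₐ[F] M) → ℂ) : ℂ :=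
  meromorphicTrailingCoeffAt (mcont (artinLS T χ)) (1 - k)

/-- **The number** `A_k(χ)`, `χ` the character of `ρ`: the quotient of the determinant of `θ` on the
`χ`-part of `ℂ ⊗ V⁺` and `L_S^*(χ, 1-k)` -/
noncomputable def beilA (T : Finset (HeightOneSpectrum (𝓞 M))) {H : Set (VC k M)}
    (θ : CMap k F H) {U : Type} [AddCommGroup U] [Module ℂ U]
    (ρ : Representation ℂ (M ≃ₐ[F] M) U) : ℂ :=
  regul ρ (VRep k F M) θ.map / leadK k T ρ.character

end lfun

section res
variable {k : ℕ} {K F M : Type} [Field K] [Field F] [Field M]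
  [Algebra K F] [Algebra K M] [Algebra F M] [IsScalarTower K F M]

theorem cres_comm {H : Set (VC k M)} (θ : CMap k K H) (g : M ≃ₐ[F] M) :
    θ.map.toLinearMap ∘ₗ VRep k F M g = VRep k F M g ∘ₗ θ.map.toLinearMap :=
  θ.map.isIntertwining' (g.restrictScalars K)

/-- restriction to intermediate fields -/
noncomputable def CMap.res (F : Type) [Field F] [Algebra K F] [Algebra F M] [IsScalarTower K F M]
    {H : Set (VC k M)} (θ : CMap k K H) : CMap k F H where
  map := ⟨θ.map.toLinearMap, cres_comm θ⟩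
  bijective := θ.bijective
  image := θ.image

end res

/-- families of subsets `H_N ⊆ ℂ ⊗ V⁺` for the fields `N`, for example the images of the groups
`K_{2k-1}(N) ⊗ ℚ` under Borel's regulator -/
abbrev Motivic (K : Type) [Field K] [NumberField K] (k : ℕ) : Type := ∀ N : Sub K, Set (VC k (NFd N))

/-- **Levels**: a finite normal extension `N` of `K` in `K̄`, a finite set `T` of primes of `N` which
is stable under `Gal(N/K)` and contains a prime above every prime of `K` which ramifies in `N`, and a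
comparison map -/
structure BLv (K : Type) [Field K] [NumberField K] (k : ℕ) (H : Motivic K k) : Type where
  /-- the field -/
  N : Sub K
  [fin : FiniteDimensional K (NFd N)]
  [nor : Normal K (NFd N)]
  /-- the finite places above `S` -/
  T : Finset (HeightOneSpectrum (𝓞 (NFd N)))
  stable : Stable K T
  ram : ContainsRamified K T
  /-- the comparison map -/
  θ : CMap k K (H N)

attribute [instance] BLv.fin BLv.nor

section
variable {K : Type} [Field K] [NumberField K] {k : ℕ} {H : Motivic K k} (ℓ : BLv K k H)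

/-- the comparison map for the extension `N/F` -/
noncomputable def BLv.map (F : Sub K) : CMap k (SFd ℓ.N F) (H ℓ.N) := ℓ.θ.res (SFd ℓ.N F)

/-- `z` is the number `A_k(χ)` of the function `χ` on `Gal(K̄/F)`, which is the inflation of the
character of a representation `ρ` of `Gal(N/F)` -/
def BLv.IsA {F : Sub K} (χ : Fn F) (z : ℂ) : Prop :=
  ∃ (n : ℕ) (ρ : Representation ℂ (NFd ℓ.N ≃ₐ[SFd ℓ.N F] NFd ℓ.N) (Fin n → ℂ)), HasCh ρ χ ∧
    z = beilA ℓ.T (ℓ.map F) ρ

open scoped Classical in
/-- **The number** `A_k(χ)` of a character `χ` of `Gal(K̄/F)` at the level `ℓ` -/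
noncomputable def BLv.A {F : Sub K} (χ : Fn F) : ℂ := if h : ∃ z, ℓ.IsA χ z then h.choose else 0

open scoped Classical in
/-- the function on `Gal(N/F)` with inflation `χ` -/
noncomputable def BLv.fn {F : Sub K} (χ : Fn F) (y : NFd ℓ.N ≃ₐ[SFd ℓ.N F] NFd ℓ.N) : ℂ :=
  if h : ∃ g : GalF F, Extends y g then χ h.choose else 0

/-- **The Artin L-function** `L_S(s, χ)` of a character `χ` of `Gal(K̄/F)` at the level `ℓ`, `Re s > 1` -/
noncomputable def BLv.L {F : Sub K} (χ : Fn F) (s : ℂ) : ℂ := artinLS ℓ.T (ℓ.fn χ) s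

end

end Pool.Agent.Q20.RS.BK
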