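import Pool.Agent.Q20.BK.Bkd
import Pool.Agent.Q20.GD.Lev

/-!
# The levels as general levels
-/

set_option autoImplicit false
set_option linter.unusedSectionVars false

namespace Pool.Agent.Q20.RS.BK

open NumberField IsDedekindDomain Pool.Agent.Q20.GD
open Representation (IntertwiningMap)

section
variable {k : ℕ} {M : Type} [Field M] [NumberField M]

instance vc_fin : FiniteDimensional ℂ (VC k M) := inferInstanceAs (FiniteDimensional ℂ (VS k M))

end

section
variable {k : ℕ} {K F M : Type} [Field K] [NumberField K] [Field F] [NumberField F] [Field M]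
  [NumberField M] [Algebra K F] [Algebra K M] [Algebra F M] [IsScalarTower K F M]

theorem vrep_rsc : VRep k F M = MonoidHom.comp (VRep k K M) (rsc K F M) := rfl

/-- the datum -/
noncomputable def dtm {H : Set (VC k M)} (θ : CMap k K H) (T : Finset (HeightOneSpectrum (𝓞 M)))
    (hT : Stable K T) (hR : ContainsRamified K T) : Dtm K M where
  V := VC k M
  X := VRep k K M
  θ := θ.map
  bij := θ.bijective
  T := T
  stable := hT
  ram := hR
  s₀ := 1 - k

theorem dtm_A {H : Set (VC k M)} (θ : CMap k K H) (T : Finset (HeightOneSpectrum (𝓞 M)))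
    (hT : Stable K T) (hR : ContainsRamified K T) {U : Type} [AddCommGroup U] [Module ℂ U]
    (ρ : Representation ℂ (M ≃ₐ[F] M) U) : (dtm θ T hT hR).A F ρ = beilA T (θ.res F) ρ := rfl

end

section
variable {K : Type} [Field K] [NumberField K] {k : ℕ} {H : Motivic K k} (ℓ : BLv K k H)

/-- the level -/
noncomputable def BLv.g : GLv K :=
  { N := ℓ.N
    fin := ℓ.fin
    nor := ℓ.nor
    D := dtm (K := K) (M := NFd ℓ.N) ℓ.θ ℓ.T ℓ.stable ℓ.ram }

theorem BLv.A_eq {F : Sub K} (χ : Fn F) : ℓ.A χ = ℓ.g.A χ := rfl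

theorem BLv.L_eq {F : Sub K} (χ : Fn F) (s : ℂ) : ℓ.L χ s = ℓ.g.L χ s := rfl

end

end Pool.Agent.Q20.RS.BK
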