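import Pool.Agent.Q20.BK.Bks
import Pool.Agent.Q20.BK.Brg
import Pool.Agent.Q20.RS.Cgp
import Pool.Agent.Q20.GD.Exa

/-!
# Reduction of the equivariant Beilinson conjecture to unramified extensions: proofs
-/

set_option autoImplicit false
set_option linter.unusedSectionVars false

namespace Pool.Agent.Q20.RS.BK

open NumberField IsDedekindDomain Pool.Agent.Q20.GD
open Pool.Agent.Q246.BI (Smooth IsCharacter induced)

section
variable {K : Type} [Field K] [NumberField K] {k : ℕ}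

theorem well_defined (H : Motivic K k) : WellDefined K k H := by
  intro F hF χ hχ
  obtain ⟨N₀, h1, h2, h3⟩ := exists_glev hF hχ
  refine ⟨N₀, h1, fun ℓ hℓ => ?_⟩
  have hfin : FiniteDimensional K ℓ.N := ℓ.fin
  have hnor : Normal K ℓ.N := ℓ.nor
  refine ⟨h3 ℓ.N hℓ, fun U _ _ _ ρ hρ => ?_⟩
  obtain ⟨h4, h5, h6⟩ := ℓ.g.A_eq (h2.trans hℓ) hρ
  refine ⟨h5, fun h => ?_, fun z => ?_⟩
  · exact GD.val_ne _ _ (h6.symm.trans h)
  · have h7 : ℓ.fn χ = ρ.character := ℓ.g.fn_eq (h2.trans hℓ) hρ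
    exact congrArg (fun f => artinLS ℓ.T f z) h7

theorem products [IsTotallyReal K] (H : Motivic K k) : Products K k H := by
  intro s hs ε hε M S L hM hL F hF χ hχ
  obtain ⟨m, hm, h1⟩ := (RS.induction s hs).2 ε hε M S L hM hL _ (virt_ind hF hχ)
  obtain ⟨l, hl, e⟩ := RS.exists_list
    (P := fun F ψ => FinExt F ∧ ∃ h : Smooth F ψ, Kind s ε M S L (F := F) ⟨ψ, h⟩)
    (AddSubgroup.closure_mono (by
      rintro f ⟨F', ψ, hF', hψ, rfl⟩
      exact ⟨F', ψ.hom, ⟨hF', ψ.smooth, hψ⟩, rfl⟩) h1)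
  obtain ⟨N₀, h2, h3⟩ := GD.prod_of_mem hF hχ m (fun t ht => ⟨(hl t ht).1, (hl t ht).2.choose⟩) e
  let fac : {t // t ∈ l} → Factor K := fun t =>
    { F := t.1.F
      fin := (hl t.1 t.2).1
      ψ := { hom := t.1.ψ, smooth := (hl t.1 t.2).2.choose }
      e := t.1.e }
  refine ⟨m, l.attach.map fac, hm, fun t ht => ?_, N₀, h2, fun ℓ hℓ => ?_⟩
  · obtain ⟨t', -, rfl⟩ := List.mem_map.1 ht
    exact (hl t'.1 t'.2).2.choose_spec
  · obtain ⟨e1, e2⟩ := h3 ℓ.g hℓ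
    refine ⟨fun z hz => ?_, ?_⟩
    · refine (e1 z hz).trans ?_
      rw [List.map_map]
      conv_lhs => rw [← List.attach_map_subtype_val l]
      rw [List.map_map]
      rfl
    · refine e2.trans ?_
      rw [List.map_map]
      conv_lhs => rw [← List.attach_map_subtype_val l]
      rw [List.map_map]
      rfl

theorem sign_pow (k : ℕ) : ((-1 : ℂˣ) ^ k = 1) ∨ ((-1 : ℂˣ) ^ k = -1) := neg_one_pow_eq_or _ k

theorem reduction_all [IsTotallyReal K] (H : Motivic K k)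
    {ε : Gal(AlgebraicClosure K/K) →* ℂˣ} (hε : Sign ((-1) ^ k) ε) {M : ℕ} {S : Finset ℕ}
    {L : Sub K} (hM : 0 < M) (hL : FinExt L)
    (h1 : ∀ F : Sub K, FinExt F → ∀ ψ : Lin F, Kind ((-1) ^ k) ε M S L ψ →
      ∃ m : ℕ, 0 < m ∧ Equality H m ψ.fn)
    {F : Sub K} (hF : FinExt F) {χ : Fn F} (hχ : Char χ) :
    ∃ m : ℕ, 0 < m ∧ Equality H m χ := by
  obtain ⟨m, hm, h⟩ := (RS.induction _ (sign_pow k)).2 ε hε M S L hM hL _ (virt_ind hF hχ)
  refine pow_of_mem (BLv.g (K := K) (k := k) (H := H)) hF hχ hm h ?_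
  rintro f ⟨F', ψ, hF', hψ, rfl⟩
  obtain ⟨n, hn, h2⟩ := h1 F' hF' ψ hψ
  exact ⟨n, hn, exact_ev BLv.g hF'
    (Pool.Agent.Q20.TR.lin_isCharacter F' ψ.hom ψ.smooth) h2⟩

theorem algebraicity [IsTotallyReal K] (H : Motivic K k) : Algebraicity K k H := by
  intro ε hε M S L hM hL h1 F hF χ hχ
  obtain ⟨m, hm, h⟩ := (RS.induction _ (sign_pow k)).2 ε hε M S L hM hL _ (virt_ind hF hχ)
  refine GD.alg_of_mem (BLv.g (K := K) (k := k) (H := H)) hF hχ hm h ?_
  rintro f ⟨F', ψ, hF', hψ, rfl⟩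
  exact (GD.alg_ev BLv.g hF' (Pool.Agent.Q20.TR.lin_isCharacter F' ψ.hom ψ.smooth)).1
    (h1 F' hF' ψ hψ)

/-- the linear characters trivial on `Gal(K̄/L)` are finite in number -/
theorem finite_lin (F L : Sub K) (hL : FinExt L) :
    Finite {ψ : Lin F // ∀ g : GalF F, (g : Gal(AlgebraicClosure K/K)) ∈ L.fixingSubgroup →
      ψ.hom g = 1} := by
  have hfd : FiniteDimensional K L := hL
  have h1 := Pool.Agent.Q246.BI.fin_index L
  let U : Subgroup (GalF F) := L.fixingSubgroup.subgroupOf F.fixingSubgroup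
  have h2 : U.FiniteIndex := inferInstance
  have h3 : U.normalCore.FiniteIndex := inferInstance
  let Q : Type := GalF F ⧸ U.normalCore
  have h4 : Finite Q := Subgroup.finite_quotient_of_finiteIndex
  have h5 : NeZero (Nat.card Q) := ⟨Nat.card_pos.ne'⟩
  have key : ∀ g : GalF F, g ^ Nat.card Q ∈ U := by
    intro g
    have h6 : ((g : Q)) ^ Nat.card Q = 1 := pow_card_eq_one'
    rw [← QuotientGroup.mk_pow, QuotientGroup.eq_one_iff] at h6
    exact U.normalCore_le h6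
  refine Finite.of_injective (β := Q → rootsOfUnity (Nat.card Q) ℂ) (fun ψ q =>
    ⟨ψ.1.hom q.out, ?_⟩) ?_
  · rw [mem_rootsOfUnity, ← map_pow]
    exact ψ.2 _ (key _)
  · intro ψ ψ' h
    have h7 : ψ.1.hom = ψ'.1.hom := by
      ext g
      have h8 := congrArg (fun f => ((f (g : Q)).1 : ℂ)) h
      have h9 : ((g : Q).out)⁻¹ * g ∈ U := by
        apply U.normalCore_le
        rw [← QuotientGroup.eq, QuotientGroup.out_eq']
      have h10 : ∀ χ : {ψ : Lin F // ∀ g : GalF F, (g : Gal(AlgebraicClosure K/K)) ∈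
          L.fixingSubgroup → ψ.hom g = 1}, χ.1.hom g = χ.1.hom (g : Q).out := by
        intro χ
        have h11 := χ.2 _ (Subgroup.mem_subgroupOf.1 h9)
        rw [map_mul, map_inv, inv_mul_eq_one] at h11
        exact h11.symm
      rw [h10, h10]
      exact h8
    apply Subtype.ext
    rcases ψ with ⟨⟨a, ha⟩, hb⟩
    rcases ψ' with ⟨⟨a', ha'⟩, hb'⟩
    cases h7
    rfl

theorem reduction [IsTotallyReal K] (H : Motivic K k) : Reduction K k H := by
  intro ε hε M S L hM hL h1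
  refine ⟨fun F hF L' hL' => ?_, fun F hF χ hχ => reduction_all H hε hM hL h1 hF hχ⟩
  have hfin := finite_lin F L' hL'
  have hft : Fintype {ψ : Lin F // ∀ g : GalF F, (g : Gal(AlgebraicClosure K/K)) ∈
    L'.fixingSubgroup → ψ.hom g = 1} := Fintype.ofFinite _
  have h2 : ∀ ψ : {ψ : Lin F // ∀ g : GalF F, (g : Gal(AlgebraicClosure K/K)) ∈
      L'.fixingSubgroup → ψ.hom g = 1}, ∃ m : ℕ, 0 < m ∧ Equality H m ψ.1.fn := fun ψ =>
    reduction_all H hε hM hL h1 hF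
      (Pool.Agent.Q20.TR.lin_isCharacter F ψ.1.hom ψ.1.smooth)
  choose m hm h3 using h2
  refine ⟨∏ ψ, m ψ, Finset.prod_pos fun ψ _ => hm ψ, fun ψ hψ => ?_⟩
  obtain ⟨N₀, h4, h5⟩ := h3 ⟨ψ, hψ⟩
  refine ⟨N₀, h4, fun ℓ hℓ σ => ?_⟩
  obtain ⟨c, hc⟩ : m ⟨ψ, hψ⟩ ∣ ∏ ψ, m ψ := Finset.dvd_prod_of_mem m (Finset.mem_univ _)
  rw [hc, pow_mul, pow_mul]
  exact congrArg (· ^ c) (h5 ℓ hℓ σ)

end

end Pool.Agent.Q20.RS.BK
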