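import Pool.Agent.Q20.BK.Bkd
import Pool.Agent.Q20.RS.Cgd

/-!
# Reduction of the equivariant Beilinson conjecture to unramified extensions: statements
-/

set_option autoImplicit false
set_option linter.unusedSectionVars false

namespace Pool.Agent.Q20.RS.BK

open NumberField IsDedekindDomain

/-- for all sufficiently large levels -/
def Ev {K : Type} [Field K] [NumberField K] {k : ℕ} {H : Motivic K k} (P : BLv K k H → Prop) :
    Prop :=
  ∃ N₀ : Sub K, FinExt N₀ ∧ ∀ ℓ : BLv K k H, N₀ ≤ ℓ.N → P ℓ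

/-- (0) The numbers `A_k(χ)` and L-functions `L_S(s, χ)` of characters `χ` of `Gal(K̄/F)` at all
sufficiently large levels are those of the representations of `Gal(N/F)` with character `χ` -/
def WellDefined (K : Type) [Field K] [NumberField K] (k : ℕ) (H : Motivic K k) : Prop :=
  ∀ F : Sub K, FinExt F → ∀ χ : Fn F, Char χ → Ev fun ℓ : BLv K k H =>
    (∃ (n : ℕ) (ρ : Representation ℂ (NFd ℓ.N ≃ₐ[SFd ℓ.N F] NFd ℓ.N) (Fin n → ℂ)), HasCh ρ χ) ∧
    ∀ (U : Type) [AddCommGroup U] [Module ℂ U] [FiniteDimensional ℂ U]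
      (ρ : Representation ℂ (NFd ℓ.N ≃ₐ[SFd ℓ.N F] NFd ℓ.N) U), HasCh ρ χ →
        ℓ.A χ = beilA ℓ.T (ℓ.map F) ρ ∧ ℓ.A χ ≠ 0 ∧ ∀ z : ℂ, ℓ.L χ z = artinLS ℓ.T ρ.character z

/-- (2) **Product formulas** for the Artin L-functions and the numbers `A_k(χ)` -/
def Products (K : Type) [Field K] [NumberField K] (k : ℕ) (H : Motivic K k) : Prop :=
  ∀ s : ℂˣ, s = 1 ∨ s = -1 → ∀ ε : Gal(AlgebraicClosure K/K) →* ℂˣ, Sign s ε →
    ∀ (M : ℕ) (S : Finset ℕ) (L : Sub K), 0 < M → FinExt L →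
      ∀ F : Sub K, FinExt F → ∀ χ : Fn F, Char χ →
        ∃ (m : ℕ) (l : List (Factor K)), 0 < m ∧ (∀ t ∈ l, Kind s ε M S L t.ψ) ∧
          Ev fun ℓ : BLv K k H =>
            (∀ z : ℂ, 1 < z.re → ℓ.L χ z ^ m = (l.map fun t => ℓ.L t.ψ.fn z ^ t.e).prod) ∧
            ℓ.A χ ^ m = (l.map fun t => ℓ.A t.ψ.fn ^ t.e).prod

/-- Beilinson's equality for the `m`-th powers, for all automorphisms of `ℂ` -/
def Equality {K : Type} [Field K] [NumberField K] {k : ℕ} (H : Motivic K k) (m : ℕ)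
    {F : Sub K} (χ : Fn F) : Prop :=
  Ev fun ℓ : BLv K k H => ∀ σ : ℂ ≃+* ℂ, σ (ℓ.A χ) ^ m = ℓ.A (conj σ χ) ^ m

/-- (3) **Reduction to unramified extensions**: the equality is granted, up to powers, for trivial
characters (Borel), for the linear characters with `ψ(c) = (-1)^k` for all complex conjugations over
totally real fields (Siegel, Klingen), and for class group characters -/
def Reduction (K : Type) [Field K] [NumberField K] (k : ℕ) (H : Motivic K k) : Prop :=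
  ∀ ε : Gal(AlgebraicClosure K/K) →* ℂˣ, Sign ((-1) ^ k) ε →
    ∀ (M : ℕ) (S : Finset ℕ) (L : Sub K), 0 < M → FinExt L →
      (∀ F : Sub K, FinExt F → ∀ ψ : Lin F, Kind ((-1) ^ k) ε M S L ψ →
        ∃ m : ℕ, 0 < m ∧ Equality H m ψ.fn) →
      (∀ F : Sub K, FinExt F → ∀ L' : Sub K, FinExt L' → ∃ m : ℕ, 0 < m ∧
        ∀ ψ : Lin F, (∀ g : GalF F, (g : Gal(AlgebraicClosure K/K)) ∈ L'.fixingSubgroup →
          ψ.hom g = 1) → Equality H m ψ.fn) ∧
      ∀ F : Sub K, FinExt F → ∀ χ : Fn F, Char χ → ∃ m : ℕ, 0 < m ∧ Equality H m χ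

/-- (4) **Algebraicity** of the numbers `A_k(χ)`, granted for the same characters -/
def Algebraicity (K : Type) [Field K] [NumberField K] (k : ℕ) (H : Motivic K k) : Prop :=
  ∀ ε : Gal(AlgebraicClosure K/K) →* ℂˣ, Sign ((-1) ^ k) ε →
    ∀ (M : ℕ) (S : Finset ℕ) (L : Sub K), 0 < M → FinExt L →
      (∀ F : Sub K, FinExt F → ∀ ψ : Lin F, Kind ((-1) ^ k) ε M S L ψ →
        Ev fun ℓ : BLv K k H => IsAlgebraic ℚ (ℓ.A ψ.fn)) →
      ∀ F : Sub K, FinExt F → ∀ χ : Fn F, Char χ →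
        Ev fun ℓ : BLv K k H => IsAlgebraic ℚ (ℓ.A χ)

end Pool.Agent.Q20.RS.BK
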